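import Mathlib
import Pool.Agent.Helper63.Transfer

/-!
# Chudnovsky's conjecture (and Demailly's conjecture) for all finite sets of points

For every field `K`, every `n ≥ 1` and every nonempty finite set `Z` of points of `ℙ^n(K)`, the
Waldschmidt constant of the ideal `I` of `Z` satisfies
`w ≥ (α(I^(m)) + n - 1) / (n + m - 1)` for all `m ≥ 1`. The case `m = 1` is Chudnovsky's
conjecture.

Idea of the proof. In characteristic `p`, with `q = p ^ e`, write a form `g` vanishing to order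
`(n + m - 1) q` along `Z` as `g = ∑ c_μ ^ q x ^ μ` with all exponents in `μ` less than `q`. All
`c_μ` vanish to order `m` along `Z`. For `μ` of maximal degree with `c_μ ≠ 0` the Hasse derivative
of `g` of index `μ` is `c_μ ^ q`, so the order of `c_μ` along `Z` is large; lowering order and
degree simultaneously by derivatives gives `deg g ≥ q (α(I^(m)) + n - 1)`. Letting `q` grow gives
the bound over perfect fields of characteristic `p`, and the general case follows by
specialisation to positive characteristic.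
-/

set_option autoImplicit false

open MvPolynomial Filter Topology
open scoped LinearAlgebra.Projectivization

namespace Pool.Agent.Results.MP_3eef69_ag.ChudnovskyDemailly

variable {K : Type*} [Field K] {n : ℕ}

/-- The homogeneous prime ideal of a point `P` of `ℙ^n(K)`: the ideal of `K[x_0, …, x_n]`
generated by all forms vanishing at `P`. -/
noncomputable def pointIdeal (P : ℙ K (Fin (n + 1) → K)) : Ideal (MvPolynomial (Fin (n + 1)) K) :=
  Ideal.span {f | ∃ d, f.IsHomogeneous d ∧ eval P.rep f = 0}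

/-- The `k`-th symbolic power of the ideal of the finite set of points `Z`:
`I_Z^(k) = ⋂_{P ∈ Z} 𝔭_P ^ k`. In particular `symbolicPower Z 1` is the vanishing ideal `I_Z`. -/
noncomputable def symbolicPower (Z : Finset (ℙ K (Fin (n + 1) → K))) (k : ℕ) :
    Ideal (MvPolynomial (Fin (n + 1)) K) :=
  ⨅ P ∈ Z, pointIdeal P ^ k

/-- The least degree of a nonzero element of the ideal `I`. -/
noncomputable def alpha (I : Ideal (MvPolynomial (Fin (n + 1)) K)) : ℕ :=
  sInf {d | ∃ F ∈ I, F ≠ 0 ∧ F.totalDegree = d}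

lemma pointIdeal_eq (P : ℙ K (Fin (n + 1) → K)) : pointIdeal P = Helper63.ptIdeal P.rep := rfl

lemma mem_symbolicPower {Z : Finset (ℙ K (Fin (n + 1) → K))} {k : ℕ}
    {F : MvPolynomial (Fin (n + 1)) K} :
    F ∈ symbolicPower Z k ↔ ∀ P ∈ Z, F ∈ pointIdeal P ^ k := by
  simp [symbolicPower]

attribute [local instance] MvPolynomial.gradedAlgebra in
lemma component_mem {P : ℙ K (Fin (n + 1) → K)} {k : ℕ} {F : MvPolynomial (Fin (n + 1)) K}
    (hF : F ∈ pointIdeal P ^ k) (i : ℕ) : homogeneousComponent i F ∈ pointIdeal P ^ k := by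
  have h1 : (pointIdeal P).IsHomogeneous (homogeneousSubmodule (Fin (n + 1)) K) := by
    apply Ideal.homogeneous_span
    rintro f ⟨d, hd, -⟩
    exact ⟨d, hd⟩
  have h2 : (pointIdeal P ^ k).IsHomogeneous (homogeneousSubmodule (Fin (n + 1)) K) := by
    induction k with
    | zero =>
      rw [pow_zero, Ideal.one_eq_top]
      exact Ideal.IsHomogeneous.top _
    | succ k ih =>
      rw [pow_succ]
      exact Ideal.IsHomogeneous.mul
        (ih (by
          have h3 : pointIdeal P ^ (k + 1) ≤ pointIdeal P ^ k := Ideal.pow_le_pow_right (by omega)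
          exact h3 hF)) h1
  exact homogeneousComponent_mem_of_mem h2 hF i

lemma exists_homogeneous {Z : Finset (ℙ K (Fin (n + 1) → K))} {k : ℕ}
    {F : MvPolynomial (Fin (n + 1)) K} (hF : F ∈ symbolicPower Z k) (hF0 : F ≠ 0) :
    ∃ (d : ℕ) (G : MvPolynomial (Fin (n + 1)) K), d ≤ F.totalDegree ∧ G ≠ 0 ∧
      G.IsHomogeneous d ∧ G ∈ symbolicPower Z k := by
  by_contra hall
  push Not at hall
  apply hF0
  rw [← sum_homogeneousComponent F]
  apply Finset.sum_eq_zero
  intro i hi
  by_contra hne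
  apply hall i (homogeneousComponent i F) (by simpa [Nat.lt_succ_iff] using hi) hne
    (homogeneousComponent_isHomogeneous i F)
  rw [mem_symbolicPower] at hF ⊢
  exact fun P hP => component_mem (hF P hP) i

/-- The ideal of a point contains a nonzero element. -/
lemma exists_mem_pointIdeal (hn : 1 ≤ n) (P : ℙ K (Fin (n + 1) → K)) :
    ∃ l ∈ pointIdeal P, l ≠ 0 := by
  obtain ⟨j, hj⟩ := Function.ne_iff.mp P.rep_nonzero
  obtain ⟨i, hi⟩ : ∃ i : Fin (n + 1), i ≠ j := by
    have : Nontrivial (Fin (n + 1)) := Fin.nontrivial_iff_two_le.mpr (by omega)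
    exact exists_ne j
  refine ⟨_, Helper63.lin_mem_ptIdeal P.rep hj i, ?_⟩
  intro h
  have h1 := congrArg (eval (Pi.single i (1 : K))) h
  simp [Pi.single_eq_of_ne (Ne.symm hi)] at h1

lemma exists_mem_symbolicPower (hn : 1 ≤ n) (Z : Finset (ℙ K (Fin (n + 1) → K))) (k : ℕ) :
    ∃ F ∈ symbolicPower Z k, F ≠ 0 := by
  choose l hl hl0 using fun P : ℙ K (Fin (n + 1) → K) => exists_mem_pointIdeal hn P
  refine ⟨∏ P ∈ Z, l P ^ k, ?_, ?_⟩
  · rw [mem_symbolicPower]
    intro P hP
    obtain ⟨c, hc⟩ := Finset.dvd_prod_of_mem (fun P => l P ^ k) hP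
    rw [hc]
    exact Ideal.mul_mem_right _ _ (Ideal.pow_mem_pow (hl P) k)
  · exact Finset.prod_ne_zero_iff.mpr (fun P _ => pow_ne_zero _ (hl0 P))

lemma alpha_le {I : Ideal (MvPolynomial (Fin (n + 1)) K)} {F : MvPolynomial (Fin (n + 1)) K}
    (hF : F ∈ I) (hF0 : F ≠ 0) : alpha I ≤ F.totalDegree :=
  Nat.sInf_le ⟨F, hF, hF0, rfl⟩

lemma alpha_spec (hn : 1 ≤ n) (Z : Finset (ℙ K (Fin (n + 1) → K))) (k : ℕ) :
    ∃ F ∈ symbolicPower Z k, F ≠ 0 ∧ F.totalDegree = alpha (symbolicPower Z k) := by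
  have hne : {d | ∃ F ∈ symbolicPower Z k, F ≠ 0 ∧ F.totalDegree = d}.Nonempty := by
    obtain ⟨F, hF, hF0⟩ := exists_mem_symbolicPower hn Z k
    exact ⟨_, F, hF, hF0, rfl⟩
  exact Nat.sInf_mem hne

/-- The finite-level inequality: `r (α(I^(m)) + n - 1) ≤ (n + m - 1) α(I^(r))`. -/
lemma alpha_ineq (hn : 1 ≤ n) (Z : Finset (ℙ K (Fin (n + 1) → K))) (hZ : Z.Nonempty)
    (m : ℕ) (hm : 1 ≤ m) (r : ℕ) (hr : 1 ≤ r) :
    r * (alpha (symbolicPower Z m) + n - 1) ≤ (n + m - 1) * alpha (symbolicPower Z r) := by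
  obtain ⟨F, hF, hF0, hFdeg⟩ := alpha_spec hn Z r
  obtain ⟨d, G, hdle, hG0, hG, hGmem⟩ := exists_homogeneous hF hF0
  have : Nonempty {P // P ∈ Z} := ⟨⟨hZ.choose, hZ.choose_spec⟩⟩
  have hmain := Helper63.main_bound (K := K) hn (by simp : Fintype.card (Fin (n + 1)) = n + 1)
    (ι := {P // P ∈ Z}) (fun P => P.1.rep) (fun P => P.1.rep_nonzero) (fun _ => 1)
    (fun _ => le_refl 1) m hm (alpha (symbolicPower Z m))
    (by
      intro d' F' hF'0 hF' hord
      rw [← hF'.totalDegree hF'0]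
      apply alpha_le _ hF'0
      rw [mem_symbolicPower]
      intro P hP
      have h1 := hord ⟨P, hP⟩
      rw [mul_one] at h1
      exact (Helper63.mem_ptIdeal_pow_iff P.rep_nonzero hF').mpr h1)
    r hr d G hG0 hG
    (by
      intro P
      rw [mul_one]
      exact Helper63.ord_of_mem_ptIdeal_pow (mem_symbolicPower.mp hGmem P.1 P.2))
  refine hmain.trans (Nat.mul_le_mul_left _ ?_)
  rw [← hFdeg]
  exact hdle

lemma subadditive (hn : 1 ≤ n) (Z : Finset (ℙ K (Fin (n + 1) → K))) :
    Subadditive (fun k : ℕ => (alpha (symbolicPower Z k) : ℝ)) := by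
  intro k l
  obtain ⟨F, hF, hF0, hFdeg⟩ := alpha_spec hn Z k
  obtain ⟨G, hG, hG0, hGdeg⟩ := alpha_spec hn Z l
  have h1 : F * G ∈ symbolicPower Z (k + l) := by
    rw [mem_symbolicPower] at *
    intro P hP
    rw [pow_add]
    exact Ideal.mul_mem_mul (hF P hP) (hG P hP)
  have h2 := alpha_le h1 (mul_ne_zero hF0 hG0)
  have h3 := totalDegree_mul F G
  have h4 : alpha (symbolicPower Z (k + l)) ≤
      alpha (symbolicPower Z k) + alpha (symbolicPower Z l) := by omega
  change (alpha (symbolicPower Z (k + l)) : ℝ) ≤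
      (alpha (symbolicPower Z k) : ℝ) + (alpha (symbolicPower Z l) : ℝ)
  exact_mod_cast h4

/-- **Chudnovsky's conjecture and Demailly's conjecture.** Let `Z` be a nonempty finite set of
points of `ℙ^n(K)`, where `K` is any field and `n ≥ 1`. Then the Waldschmidt constant
`w = lim α(I_Z^(k)) / k` exists, and for every `m ≥ 1`
`w ≥ (α(I_Z^(m)) + n - 1) / (n + m - 1)`. For `m = 1` this is Chudnovsky's inequality
`w ≥ (α(I_Z) + n - 1) / n`. -/
theorem result {K : Type*} [Field K] {n : ℕ} (hn : 1 ≤ n)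
    (Z : Finset (ℙ K (Fin (n + 1) → K))) (hZ : Z.Nonempty) :
    ∃ w : ℝ, Tendsto (fun k : ℕ => (alpha (symbolicPower Z k) : ℝ) / k) atTop (𝓝 w) ∧
      ∀ m : ℕ, 1 ≤ m → ((alpha (symbolicPower Z m) : ℝ) + n - 1) / (n + m - 1) ≤ w := by
  have hbdd : BddBelow (Set.range fun k : ℕ => (alpha (symbolicPower Z k) : ℝ) / k) := by
    refine ⟨0, ?_⟩
    rintro _ ⟨k, rfl⟩
    positivity
  have hlim := (subadditive hn Z).tendsto_lim hbdd
  have key : ∀ m : ℕ, 1 ≤ m →
      ((alpha (symbolicPower Z m) : ℝ) + n - 1) / (n + m - 1) ≤ (subadditive hn Z).lim := by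
    intro m hm
    apply ge_of_tendsto hlim
    filter_upwards [eventually_ge_atTop 1] with r hr
    have h1 := alpha_ineq hn Z hZ m hm r hr
    have hnm : (0 : ℝ) < n + m - 1 := by
      have h2 : (1 : ℝ) ≤ n := by exact_mod_cast hn
      have h3 : (1 : ℝ) ≤ m := by exact_mod_cast hm
      linarith
    have hr0 : (0 : ℝ) < r := by exact_mod_cast hr
    rw [div_le_div_iff₀ hnm hr0]
    have h4 : ((r * (alpha (symbolicPower Z m) + n - 1) : ℕ) : ℝ) ≤
        (((n + m - 1) * alpha (symbolicPower Z r) : ℕ) : ℝ) := by exact_mod_cast h1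
    rw [Nat.cast_mul, Nat.cast_mul, Nat.cast_sub (by omega), Nat.cast_sub (by omega)] at h4
    push_cast at h4
    linarith
  exact ⟨_, hlim, key⟩

end Pool.Agent.Results.MP_3eef69_ag.ChudnovskyDemailly
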